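import Pool.Agent.H44.DU.Targets2

/-!
# Board du_modules (MP_81a758_an), module `ABL`
-/

set_option autoImplicit false

namespace Pool.Agent.H19.DU.ABL

open Pool.Agent.H44.DU Filter Topology

variable {n : ℕ} (S : Surf n)

/-- scale of the letter number `k` -/
def aa (w : List (Side n)) (k : ℕ) : ℝ := ((w[k]?).map S.a).getD 1

/-- scale of the letter before the letter number `k` -/
def ab (w : List (Side n)) : ℕ → ℝ
  | 0 => 1
  | k + 1 => aa S w k

/-- exit height at the letter number `k` -/
noncomputable def he (α : Fin n → ℝ) (β : Fin n → ℂ) (t x : ℝ) (w : List (Side n)) (k : ℕ) : ℝ :=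
  ((w[k]?).map (fun r => S.ex α β t r (S.g t (w.take k) x))).getD 1

theorem A_eq (w : List (Side n)) : S.A w = ∏ k ∈ Finset.range w.length, aa S w k := by
  induction w with
  | nil => simp [Surf.A]
  | cons r w ih =>
    rw [Surf.A, ih, List.length_cons, Finset.prod_range_succ', mul_comm]
    congr 1

theorem aa_eq (u : List (Side n)) (r : Side n) (w' : List (Side n)) :
    aa S (u ++ r :: w') u.length = S.a r := by
  simp [aa]

theorem he_eq (α : Fin n → ℝ) (β : Fin n → ℂ) (t x : ℝ) (u : List (Side n)) (r : Side n)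
    (w' : List (Side n)) :
    he S α β t x (u ++ r :: w') u.length = S.ex α β t r (S.g t u x) := by
  simp [he]

theorem split (w : List (Side n)) (k : ℕ) (hk : k < w.length) :
    ∃ u r w', w = u ++ r :: w' ∧ u.length = k := by
  refine ⟨w.take k, w[k], w.drop (k + 1), ?_, ?_⟩
  · rw [← List.drop_eq_getElem_cons hk, List.take_append_drop]
  · rw [List.length_take]; omega

theorem split2 (w : List (Side n)) (k : ℕ) (hk : k + 1 < w.length) :
    ∃ u r r' w', w = u ++ r :: r' :: w' ∧ u.length = k := by
  obtain ⟨u, r, w', hw, hu⟩ := split w k (by omega)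
  cases w' with
  | nil =>
    exfalso
    rw [hw] at hk
    simp at hk
    omega
  | cons r' w'' => exact ⟨u, r, r', w'', hw, hu⟩

/-- The sum of the defects is at most the number of letters times a bound of the terms. -/
theorem dfc_le {α : Fin n → ℝ} {β : Fin n → ℂ} {t e : ℝ} (he : 0 ≤ e) (w : List (Side n)) :
    ∀ x : ℝ, (∀ u r r' w', w = u ++ r :: r' :: w' →
      S.ex α β t r' (S.g t (u ++ [r]) x) - S.a r * S.ex α β t r (S.g t u x) ≤ e) →
    S.dfc α β t w x ≤ w.length * e := by
  induction w with
  | nil => intro x _; simp [Surf.dfc]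
  | cons s w ih =>
    intro x h
    cases w with
    | nil => simpa [Surf.dfc] using he
    | cons s' w =>
      have h1 := h [] s s' w rfl
      rw [List.nil_append, Surf.g_single, Surf.g_nil] at h1
      have h2 := ih (S.mv t s x) (by
        intro u r r' w' hw
        have h3 := h (s :: u) r r' w' (by rw [hw]; rfl)
        rwa [List.cons_append, Surf.g_cons, Surf.g_cons] at h3)
      simp only [Surf.dfc]
      rw [List.length_cons (as := s' :: w)]
      push_cast
      linarith

/-- The sum of the heights is at most the number of letters times a bound of the terms. -/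
theorem sme_le {α : Fin n → ℝ} {β : Fin n → ℂ} {t e : ℝ} (w : List (Side n)) :
    ∀ x : ℝ, (∀ u r w', w = u ++ r :: w' → S.ex α β t r (S.g t u x) ≤ e) →
    S.sme α β t w x ≤ w.length * e := by
  induction w with
  | nil => intro x _; simp [Surf.sme]
  | cons s w ih =>
    intro x h
    have h1 := h [] s w rfl
    rw [Surf.g_nil] at h1
    have h2 := ih (S.mv t s x) (by
      intro u r w' hw
      have h3 := h (s :: u) r w' (by rw [hw]; rfl)
      rwa [Surf.g_cons] at h3)
    simp only [Surf.sme]
    rw [List.length_cons]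
    push_cast
    linarith

/-- Uniform constants for finitely many objects. -/
theorem unif {ι : Type} {s : Set ι} (hs : s.Finite) (P : ι → ℝ → ℝ → Prop)
    (hm : ∀ i δ c δ' c', P i δ c → δ' ≤ δ → c' ≤ c → P i δ' c')
    (h : ∀ i ∈ s, ∃ δ > 0, ∃ c > 0, P i δ c) : ∃ δ > 0, ∃ c > 0, ∀ i ∈ s, P i δ c := by
  induction s, hs using Set.Finite.induction_on with
  | empty => exact ⟨1, one_pos, 1, one_pos, fun i hi => absurd hi (Set.notMem_empty i)⟩
  | @insert a s _ _ ih =>
    obtain ⟨δ₁, hδ₁, c₁, hc₁, h1⟩ := ih fun i hi => h i (Set.mem_insert_of_mem a hi)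
    obtain ⟨δ₂, hδ₂, c₂, hc₂, h2⟩ := h a (Set.mem_insert a s)
    refine ⟨min δ₁ δ₂, lt_min hδ₁ hδ₂, min c₁ c₂, lt_min hc₁ hc₂, ?_⟩
    intro i hi
    rcases hi with rfl | hi
    · exact hm _ _ _ _ _ h2 (min_le_right _ _) (min_le_right _ _)
    · exact hm _ _ _ _ _ (h1 i hi) (min_le_left _ _) (min_le_left _ _)

theorem pf_ABL (hHL1 : T_HL1) (hHL2 : T_HL2) (hHL3 : T_HL3) (hCMP : T_CMP) (hCN : T_CN)
    (hCA : T_CA) (hGA : T_GA) : T_ABL := by
  intro n S J up lev α β t₀ N l hJ hH ht₀ hGd hB hup
  obtain ⟨c₀, hc₀, hGain⟩ := hGA n S |t₀|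
  have hG := hGain t₀ le_rfl
  obtain ⟨hL1, hL2, D, hD, hL3⟩ := hHL1 n S J up lev α β hJ hH
  obtain ⟨δ₀, hδ₀, hcont⟩ := hCN n S α β t₀ hGd
  set L : ℕ := 2 * (N + 3) + 3 * n with hLdef
  have hne : ∀ (w : List (Side n)) (k : ℕ), 0 < k → w.length = k → w ≠ [] := by
    rintro w k hk hw rfl
    simp at hw
    omega
  -- the defects
  obtain ⟨δ₁, hδ₁, c₁, hc₁, hdfc⟩ := unif
    ((List.finite_length_eq (Side n) L).subset
      (fun w (hw : w.length = L ∧ ∀ r ∈ w, lev r.1 = l) => hw.1))
    (fun w δ c => ∀ t, |t - t₀| < δ → ∀ x, S.Run t w x → c ≤ S.dfc α β t w x)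
    (fun w δ c δ' c' h hδ hc t ht x hx => hc.trans (h t (ht.trans_le hδ) x hx))
    (by
      rintro w ⟨hw1, hw2⟩
      exact hCMP n S t₀ δ₀ w (fun p => S.dfc α β p.1 w p.2) hGd (hne w L (by omega) hw1) hδ₀
        (hcont w).1 (fun hex x hlo hhi => hHL2 n S J up lev α β t₀ c₀ N l hJ hH ht₀ hGd hc₀ hG hB
          hup w x hw2 (by omega) hex hlo hhi))
  -- the sums
  obtain ⟨δ₂, hδ₂, c₂, hc₂, hsme⟩ := unif
    ((List.finite_length_eq (Side n) (3 * n + 1)).subset
      (fun w (hw : w.length = 3 * n + 1 ∧ ∀ r ∈ w, lev r.1 = l) => hw.1))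
    (fun w δ c => ∀ t, |t - t₀| < δ → ∀ x, S.Run t w x → c ≤ S.sme α β t w x)
    (fun w δ c δ' c' h hδ hc t ht x hx => hc.trans (h t (ht.trans_le hδ) x hx))
    (by
      rintro w ⟨hw1, hw2⟩
      exact hCMP n S t₀ δ₀ w (fun p => S.sme α β p.1 w p.2) hGd
        (hne w (3 * n + 1) (by omega) hw1) hδ₀ (hcont w).2
        (fun hex x hlo hhi => hHL3 n S J up lev α β t₀ c₀ l hJ hH ht₀ hGd hc₀ hG
          hup w x hw2 (by omega) hex hlo hhi))
  obtain ⟨δ₃, hδ₃, hJb⟩ := Metric.isOpen_iff.1 hJ t₀ ht₀
  -- the constants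
  set M : ℝ := 1 + ∑ s, S.a s with hM
  have hsum : 0 ≤ ∑ s, S.a s := Finset.sum_nonneg (fun s _ => (S.a_pos s).le)
  have hMpos : 0 < M := by linarith
  have haM : ∀ s, S.a s ≤ M := by
    intro s
    have : S.a s ≤ ∑ s, S.a s :=
      Finset.single_le_sum (f := S.a) (fun s _ => (S.a_pos s).le) (Finset.mem_univ s)
    linarith
  have haaM : ∀ (w : List (Side n)) k, 0 < aa S w k ∧ aa S w k ≤ M := by
    intro w k
    unfold aa
    cases w[k]? with
    | none => simp; linarith
    | some r => exact ⟨S.a_pos r, haM r⟩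
  have habM : ∀ (w : List (Side n)) k, 0 < ab S w k ∧ ab S w k ≤ M := by
    intro w k
    cases k with
    | zero => simp only [ab]; constructor <;> linarith
    | succ k => exact haaM w k
  set e₁ : ℝ := c₁ / (L + 1) with he₁
  set e₂ : ℝ := c₂ / (3 * n + 2) with he₂
  have he₁p : 0 < e₁ := by positivity
  have he₂p : 0 < e₂ := by positivity
  set c : ℝ := min (e₁ / (M * D)) e₂ with hc
  have hcp : 0 < c := lt_min (by positivity) he₂p
  obtain ⟨C, hC, ρ, hρ0, hρ1, hmain⟩ := hCA c D M L (3 * n) hcp hD hMpos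
  refine ⟨min δ₁ (min δ₂ δ₃), lt_min hδ₁ (lt_min hδ₂ hδ₃), M * C + 1, by positivity, ρ, hρ0, hρ1,
    ?_⟩
  intro t ht w x hlev hrun
  have ht1 : |t - t₀| < δ₁ := ht.trans_le (min_le_left _ _)
  have ht2 : |t - t₀| < δ₂ := ht.trans_le ((min_le_right _ _).trans (min_le_left _ _))
  have ht3 : t ∈ J := hJb (by
    rw [Metric.mem_ball, Real.dist_eq]
    exact ht.trans_le ((min_le_right _ _).trans (min_le_right _ _)))
  have hle : ∀ u r w', w = u ++ r :: w' → lev r.1 = l := by
    intro u r w' hw
    exact hlev r (by rw [hw]; simp)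
  have hpos : ∀ u r w', w = u ++ r :: w' → 0 < S.ex α β t r (S.g t u x) ∧
      S.ex α β t r (S.g t u x) ≤ D := by
    intro u r w' hw
    have hJ' : S.InJ t r (S.g t u x) := by
      have h := hrun
      rw [hw, Surf.run_append] at h
      exact h.2.2.1
    exact ⟨hL1 t ht3 r _ hJ' (by rw [hle u r w' hw]; exact hup), hL3 t r _ hJ'⟩
  have hstep : ∀ u r r' w', w = u ++ r :: r' :: w' →
      S.a r * S.ex α β t r (S.g t u x) ≤ S.ex α β t r' (S.g t (u ++ [r]) x) := by
    intro u r r' w' hw
    have h := hrun
    rw [hw, Surf.run_append, Surf.run_cons_cons] at h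
    obtain ⟨-, -, h3, h4, h5⟩ := h
    have h6 : S.Run t [r, r'] (S.g t u x) := by
      rw [Surf.run_cons_cons, Surf.run_single]
      exact ⟨h3, h4, h5.1⟩
    have e1 := hle u r (r' :: w') hw
    have e2 := hle (u ++ [r]) r' w' (by rw [hw]; simp)
    have h7 := (hL2 t ht3 r r' _ h6 (e1.trans e2.symm) (by rw [e1]; exact hup)).1
    rw [Surf.g_append, Surf.g_single]
    exact h7
  have hfin : 0 < w.length → S.A w ≤ M * (C * ρ ^ w.length) := by
    intro hm
    have hca := hmain w.length (ab S w) (he S α β t x w) ?_ ?_ ?_ ?_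
    · obtain ⟨m', hm'⟩ : ∃ m', w.length = m' + 1 := ⟨w.length - 1, by omega⟩
      rw [A_eq, hm']
      rw [hm', Finset.prod_range_succ'] at hca
      simp only [ab, mul_one] at hca
      rw [Finset.prod_range_succ, mul_comm M]
      apply mul_le_mul hca (haaM w m').2 (haaM w m').1.le
      positivity
    · intro k hk
      obtain ⟨u, r, w', hw, hu⟩ := split w k hk
      have e2 : he S α β t x w k = S.ex α β t r (S.g t u x) := by
        rw [hw, ← hu, he_eq]
      rw [e2]
      exact ⟨(habM w k).1, (habM w k).2, hpos u r w' hw⟩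
    · intro k hk
      obtain ⟨u, r, r', w', hw, hu⟩ := split2 w k hk
      have hw2 : w = (u ++ [r]) ++ r' :: w' := by rw [hw]; simp
      have hu2 : (u ++ [r]).length = k + 1 := by simp [hu]
      have e1 : ab S w (k + 1) = S.a r := by
        simp only [ab]
        rw [hw, ← hu, aa_eq]
      have e2 : he S α β t x w k = S.ex α β t r (S.g t u x) := by
        rw [hw, ← hu, he_eq]
      have e3 : he S α β t x w (k + 1) = S.ex α β t r' (S.g t (u ++ [r]) x) := by
        rw [hw2, ← hu2, he_eq]
      rw [e1, e2, e3]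
      exact hstep u r r' w' hw
    · intro k hk
      set v : List (Side n) := (w.drop k).take L with hv
      have hvlen : v.length = L := by
        rw [hv, List.length_take, List.length_drop]
        omega
      have hdrop : S.Run t v (S.g t (w.take k) x) := S.run_take (S.run_drop hrun k) L
      have h1 := hdfc v ⟨hvlen, fun r hr =>
        hlev r (List.mem_of_mem_drop (List.mem_of_mem_take hr))⟩ t ht1 _ hdrop
      obtain ⟨u, r, r', w', hsub, hineq⟩ : ∃ u r r' w', v = u ++ r :: r' :: w' ∧
          e₁ < S.ex α β t r' (S.g t (u ++ [r]) (S.g t (w.take k) x)) -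
            S.a r * S.ex α β t r (S.g t u (S.g t (w.take k) x)) := by
        by_contra hcon
        push Not at hcon
        have h2 := dfc_le S he₁p.le v (S.g t (w.take k) x) hcon
        rw [hvlen] at h2
        have h3 : (L : ℝ) * e₁ < c₁ := by
          have h4 : ((L : ℝ) + 1) * e₁ = c₁ := by
            rw [he₁]; field_simp
          linarith
        linarith
      have hw : w = (w.take k ++ u) ++ r :: r' :: (w' ++ (w.drop k).drop L) := by
        have e1 : w.drop k = (u ++ r :: r' :: w') ++ (w.drop k).drop L := by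
          rw [← hsub, hv, List.take_append_drop]
        have e2 : w = w.take k ++ w.drop k := (List.take_append_drop k w).symm
        calc w = w.take k ++ w.drop k := e2
          _ = w.take k ++ ((u ++ r :: r' :: w') ++ (w.drop k).drop L) := by rw [← e1]
          _ = _ := by simp
      have hklen : (w.take k).length = k := by
        rw [List.length_take]; omega
      have hulen : (w.take k ++ u).length = k + u.length := by
        rw [List.length_append, hklen]
      have hLu : u.length + 2 ≤ L := by
        rw [← hvlen, hsub]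
        simp
      obtain ⟨v', z, hv'len, hwv, g1, g2⟩ : ∃ v' z, v'.length = k + u.length ∧
          w = v' ++ r :: r' :: z ∧
          S.g t (u ++ [r]) (S.g t (w.take k) x) = S.g t (v' ++ [r]) x ∧
          S.g t u (S.g t (w.take k) x) = S.g t v' x := by
        refine ⟨w.take k ++ u, w' ++ (w.drop k).drop L, hulen, hw, ?_, ?_⟩
        · rw [← Surf.g_append, List.append_assoc]
        · rw [← Surf.g_append]
      rw [g1, g2] at hineq
      have hw2 : w = (v' ++ [r]) ++ r' :: z := by rw [hwv]; simp
      have e1 : ab S w (v'.length + 1) = S.a r := by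
        simp only [ab]
        rw [hwv, aa_eq]
      have e2 : he S α β t x w v'.length = S.ex α β t r (S.g t v' x) := by
        rw [hwv, he_eq]
      have e3 : he S α β t x w (v'.length + 1) = S.ex α β t r' (S.g t (v' ++ [r]) x) := by
        rw [hw2, show v'.length + 1 = (v' ++ [r]).length by simp, he_eq]
      refine ⟨v'.length, by omega, by omega, ?_⟩
      rw [e1, e2, e3]
      obtain ⟨p1, p2⟩ := hpos v' r (r' :: z) hwv
      have h4 : c * (S.a r * S.ex α β t r (S.g t v' x)) ≤ e₁ := by
        have h5 : c ≤ e₁ / (M * D) := min_le_left _ _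
        have h6 : S.a r * S.ex α β t r (S.g t v' x) ≤ M * D :=
          mul_le_mul (haM r) p2 p1.le hMpos.le
        have h7 : 0 < M * D := by positivity
        calc c * (S.a r * S.ex α β t r (S.g t v' x)) ≤ e₁ / (M * D) * (M * D) :=
              mul_le_mul h5 h6 (mul_pos (S.a_pos r) p1).le (by positivity)
          _ = e₁ := by field_simp
      linarith
    · intro hk
      set v : List (Side n) := w.take (3 * n + 1) with hv
      have hvlen : v.length = 3 * n + 1 := by
        rw [hv, List.length_take]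
        omega
      have h1 := hsme v ⟨hvlen, fun r hr => hlev r (List.mem_of_mem_take hr)⟩ t ht2 x
        (S.run_take hrun _)
      obtain ⟨u, r, w', hsub, hineq⟩ : ∃ u r w', v = u ++ r :: w' ∧
          e₂ < S.ex α β t r (S.g t u x) := by
        by_contra hcon
        push Not at hcon
        have h2 := sme_le S v x hcon
        rw [hvlen] at h2
        have h3 : ((3 * n + 1 : ℕ) : ℝ) * e₂ < c₂ := by
          have h4 : (3 * (n : ℝ) + 2) * e₂ = c₂ := by
            rw [he₂]; field_simp
          push_cast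
          linarith
        linarith
      have hw : w = u ++ r :: (w' ++ w.drop (3 * n + 1)) := by
        have e2 : w = v ++ w.drop (3 * n + 1) := (List.take_append_drop _ w).symm
        calc w = v ++ w.drop (3 * n + 1) := e2
          _ = (u ++ r :: w') ++ w.drop (3 * n + 1) := by rw [← hsub]
          _ = _ := by simp
      have hu : u.length + 1 ≤ 3 * n + 1 := by
        rw [← hvlen, hsub]
        simp
      refine ⟨u.length, by omega, ?_⟩
      have e2 : he S α β t x w u.length = S.ex α β t r (S.g t u x) := by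
        rw [hw, he_eq]
      rw [e2]
      exact (min_le_right _ _).trans hineq.le
  rcases Nat.eq_zero_or_pos w.length with h | h
  · have h0 : w = [] := List.length_eq_zero_iff.1 h
    rw [h0]
    simp only [Surf.A, List.length_nil, pow_zero, mul_one]
    have : 0 < M * C := by positivity
    linarith
  · have h1 := hfin h
    have h2 : 0 < ρ ^ w.length := by positivity
    calc S.A w ≤ M * (C * ρ ^ w.length) := h1
      _ ≤ (M * C + 1) * ρ ^ w.length := by ring_nf; linarith

end Pool.Agent.H19.DU.ABL
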