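import Pool.Agent.H44.DU.Targets2

set_option autoImplicit false

namespace Pool.Agent.H19.DU.CMP

open Pool.Agent.H44.DU Filter Topology

lemma cont_xi (z : ℂ) : Continuous fun t : ℝ => xi t z := by
  unfold xi
  fun_prop

lemma cont_lo {n : ℕ} (S : Surf n) (w : List (Side n)) : Continuous fun t : ℝ => S.lo t w := by
  induction w with
  | nil => simpa only [Surf.lo] using continuous_const
  | cons r w ih =>
    cases w with
    | nil => simpa only [Surf.lo] using cont_xi (S.Q r)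
    | cons r' w =>
      simp only [Surf.lo]
      exact (cont_xi (S.Q r)).max ((ih.sub (cont_xi (S.b r))).div_const _)

lemma cont_hi {n : ℕ} (S : Surf n) (w : List (Side n)) : Continuous fun t : ℝ => S.hi t w := by
  induction w with
  | nil => simpa only [Surf.hi] using continuous_const
  | cons r w ih =>
    cases w with
    | nil => simpa only [Surf.hi] using cont_xi (S.P r)
    | cons r' w =>
      simp only [Surf.hi]
      exact (cont_xi (S.P r)).min ((ih.sub (cont_xi (S.b r))).div_const _)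

theorem pf_CMP (h1 : T_LH) (h2 : T_DV) : T_CMP := by
  intro n S t₀ δ₀ w F hGd hne hδ₀ hF hpos
  by_cases hr : ∃ y, S.Run t₀ w y
  · -- the word is realised at `t₀`
    obtain ⟨y, hy⟩ := hr
    have hpos' := hpos ⟨y, hy⟩
    obtain ⟨-, hy1, hy2⟩ := (h1 n S t₀ w hne y).1 hy
    have hopen : IsOpen {p : ℝ × ℝ | |p.1 - t₀| < δ₀} :=
      isOpen_lt ((continuous_fst.sub continuous_const).abs) continuous_const
    have hslice : ContinuousOn (fun x : ℝ => F (t₀, x)) (Set.Icc (S.lo t₀ w) (S.hi t₀ w)) := by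
      apply hF.comp (by fun_prop)
      intro x _
      simpa using hδ₀
    obtain ⟨x₀, hx₀, hmin⟩ := isCompact_Icc.exists_isMinOn
      (⟨y, hy1.le, hy2.le⟩ : (Set.Icc (S.lo t₀ w) (S.hi t₀ w)).Nonempty) hslice
    have hm : 0 < F (t₀, x₀) := hpos' x₀ hx₀.1 hx₀.2
    have hU : IsOpen ({p : ℝ × ℝ | |p.1 - t₀| < δ₀} ∩ F ⁻¹' Set.Ioi (F (t₀, x₀) / 2)) :=
      hF.isOpen_inter_preimage hopen isOpen_Ioi
    have hsub : ({t₀} : Set ℝ) ×ˢ Set.Icc (S.lo t₀ w) (S.hi t₀ w) ⊆
        ({p : ℝ × ℝ | |p.1 - t₀| < δ₀} ∩ F ⁻¹' Set.Ioi (F (t₀, x₀) / 2)) := by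
      rintro ⟨t, x⟩ ⟨ht, hx⟩
      have ht' : t = t₀ := ht
      subst ht'
      refine ⟨by simpa using hδ₀, ?_⟩
      have h3 : F (t, x₀) ≤ F (t, x) := hmin hx
      change F (t, x₀) / 2 < F (t, x)
      linarith
    obtain ⟨V, W, hV, hW, hV0, hW0, hVW⟩ :=
      generalized_tube_lemma isCompact_singleton isCompact_Icc hU hsub
    obtain ⟨ε₁, hε₁, hb1⟩ := Metric.isOpen_iff.1 hW (S.lo t₀ w)
      (hW0 ⟨le_rfl, (hy1.trans hy2).le⟩)
    obtain ⟨ε₂, hε₂, hb2⟩ := Metric.isOpen_iff.1 hW (S.hi t₀ w)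
      (hW0 ⟨(hy1.trans hy2).le, le_rfl⟩)
    have ev1 : ∀ᶠ t in 𝓝 t₀, S.lo t₀ w - ε₁ < S.lo t w :=
      continuousAt_const.eventually_lt (cont_lo S w).continuousAt (by linarith)
    have ev2 : ∀ᶠ t in 𝓝 t₀, S.hi t w < S.hi t₀ w + ε₂ :=
      (cont_hi S w).continuousAt.eventually_lt continuousAt_const (by linarith)
    have ev3 : ∀ᶠ t in 𝓝 t₀, t ∈ V := hV.mem_nhds (hV0 rfl)
    obtain ⟨δ, hδ, hball⟩ := Metric.eventually_nhds_iff.1 (ev1.and (ev2.and ev3))
    refine ⟨δ, hδ, F (t₀, x₀) / 2, by linarith, ?_⟩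
    intro t ht x hx
    obtain ⟨e1, e2, e3⟩ := hball (show dist t t₀ < δ by rw [Real.dist_eq]; exact ht)
    obtain ⟨-, hx1, hx2⟩ := (h1 n S t w hne x).1 hx
    have hxW : x ∈ W := by
      rcases lt_or_ge x (S.lo t₀ w) with h3 | h3
      · apply hb1
        rw [Metric.mem_ball, Real.dist_eq, abs_lt]
        constructor <;> linarith
      · rcases lt_or_ge (S.hi t₀ w) x with h4 | h4
        · apply hb2
          rw [Metric.mem_ball, Real.dist_eq, abs_lt]
          constructor <;> linarith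
        · exact hW0 ⟨h3, h4⟩
    have h5 := (hVW (Set.mk_mem_prod e3 hxW)).2
    exact (show F (t₀, x₀) / 2 < F (t, x) from h5).le
  · -- the word is not realised at `t₀`
    push Not at hr
    by_cases hC : S.Chn w
    swap
    · exact ⟨1, one_pos, 1, one_pos, fun t _ x hx => absurd ((h1 n S t w hne x).1 hx).1 hC⟩
    have hle : S.hi t₀ w ≤ S.lo t₀ w := by
      by_contra hlt
      push Not at hlt
      apply hr ((S.lo t₀ w + S.hi t₀ w) / 2)
      rw [h1 n S t₀ w hne]
      exact ⟨hC, by linarith, by linarith⟩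
    obtain ⟨⟨u, r, w', hw1, hlo⟩, ⟨u', r', w'', hw2, hhi⟩, -⟩ := h2 n S t₀ w hne
    have hb : ∀ t, xi t (S.dev u (nx r)) ≤ S.lo t w ∧ S.hi t w ≤ xi t (S.dev u' r') := by
      intro t
      have h3 := (h2 n S t w hne).2.2
      exact ⟨(h3 u r w' hw1).1, (h3 u' r' w'' hw2).2⟩
    rw [hlo, hhi] at hle
    rcases lt_or_eq_of_le hle with h3 | h3
    · have h4 : ∀ᶠ t in 𝓝 t₀, xi t (S.dev u' r') < xi t (S.dev u (nx r)) :=
        (cont_xi _).continuousAt.eventually_lt (cont_xi _).continuousAt h3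
      obtain ⟨δ, hδ, hball⟩ := Metric.eventually_nhds_iff.1 h4
      refine ⟨δ, hδ, 1, one_pos, ?_⟩
      intro t ht x hx
      exfalso
      have h9 := hball (show dist t t₀ < δ by rw [Real.dist_eq]; exact ht)
      obtain ⟨-, h5, h6⟩ := (h1 n S t w hne x).1 hx
      obtain ⟨h7, h8⟩ := hb t
      linarith
    · have him := hGd u' u r' (nx r) h3
      have hre : (S.dev u' r').re = (S.dev u (nx r)).re := by
        have h4 := h3
        unfold xi at h4
        rw [him] at h4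
        linarith
      have heq : S.dev u' r' = S.dev u (nx r) := Complex.ext hre him
      refine ⟨1, one_pos, 1, one_pos, ?_⟩
      intro t _ x hx
      exfalso
      obtain ⟨-, h5, h6⟩ := (h1 n S t w hne x).1 hx
      obtain ⟨h7, h8⟩ := hb t
      rw [heq] at h8
      linarith

end Pool.Agent.H19.DU.CMP
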