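import Pool.Agent.H44.DU.Targets2

set_option autoImplicit false

namespace Pool.Agent.H19.DU.CN

open Pool.Agent.H44.DU Filter Topology

lemma cont_xi (z : ℂ) : Continuous fun t : ℝ => xi t z := by
  unfold xi
  fun_prop

/-- In a good direction no side is on a leaf. -/
lemma gd_ne {n : ℕ} {S : Surf n} {t : ℝ} (h : S.Gd t) (s : Side n) :
    xi t (S.P s) ≠ xi t (S.Q s) := by
  intro he
  have d1 : S.dev [] s = S.P s := by simp [Surf.dev, Surf.B, Surf.A]
  have d2 : S.dev [] (nx s) = S.Q s := by simp [Surf.dev, Surf.B, Surf.A, Surf.P_nx]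
  have him := h [] [] s (nx s) (by rw [d1, d2]; exact he)
  rw [d1, d2] at him
  apply S.P_ne_Q s
  refine Complex.ext ?_ him
  unfold xi at he
  rw [him] at he
  linarith

theorem pf_CN : T_CN := by
  intro n S α β t₀ hGd
  have hev : ∀ᶠ t in 𝓝 t₀, ∀ s : Side n, xi t (S.P s) - xi t (S.Q s) ≠ 0 := by
    rw [eventually_all]
    intro s
    exact ((cont_xi (S.P s)).sub (cont_xi (S.Q s))).continuousAt.eventually_ne
      (sub_ne_zero.2 (gd_ne hGd s))
  obtain ⟨δ, hδ, hball⟩ := Metric.eventually_nhds_iff.1 hev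
  refine ⟨δ, hδ, ?_⟩
  have hne : ∀ (s : Side n) (p : ℝ × ℝ), p ∈ {p : ℝ × ℝ | |p.1 - t₀| < δ} →
      xi p.1 (S.P s) - xi p.1 (S.Q s) ≠ 0 := by
    intro s p hp
    exact hball (by rw [Real.dist_eq]; exact hp) s
  have hlam : ∀ s : Side n, ContinuousOn (fun p : ℝ × ℝ => S.lam p.1 s p.2)
      {p | |p.1 - t₀| < δ} := by
    intro s
    unfold Surf.lam
    apply ContinuousOn.div
    · exact (((cont_xi (S.P s)).comp continuous_fst).sub continuous_snd).continuousOn
    · exact (((cont_xi (S.P s)).comp continuous_fst).sub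
        ((cont_xi (S.Q s)).comp continuous_fst)).continuousOn
    · exact hne s
  have hex : ∀ s : Side n, ContinuousOn (fun p : ℝ × ℝ => S.ex α β p.1 s p.2)
      {p | |p.1 - t₀| < δ} := by
    intro s
    have h1 : ∀ p : ℝ × ℝ, S.ex α β p.1 s p.2 =
        α s.1 + (β s.1).re * ((S.P s).re + S.lam p.1 s p.2 * (S.Q s - S.P s).re) +
          (β s.1).im * ((S.P s).im + S.lam p.1 s p.2 * (S.Q s - S.P s).im) := by
      intro p
      simp only [Surf.ex, hh, Surf.pt, Complex.add_re, Complex.add_im, Complex.re_ofReal_mul,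
        Complex.im_ofReal_mul]
    simp only [h1]
    have := hlam s
    fun_prop
  have hmv : ∀ r : Side n, Continuous (fun p : ℝ × ℝ => (p.1, S.mv p.1 r p.2)) := by
    intro r
    unfold Surf.mv
    have := (cont_xi (S.b r)).comp (continuous_fst (X := ℝ) (Y := ℝ))
    exact continuous_fst.prodMk ((continuous_const.mul continuous_snd).add this)
  have hmaps : ∀ r : Side n, Set.MapsTo (fun p : ℝ × ℝ => (p.1, S.mv p.1 r p.2))
      {p | |p.1 - t₀| < δ} {p | |p.1 - t₀| < δ} := by
    intro r p hp
    exact hp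
  intro w
  induction w with
  | nil =>
    exact ⟨by simpa only [Surf.dfc] using continuousOn_const,
      by simpa only [Surf.sme] using continuousOn_const⟩
  | cons r w ih =>
    constructor
    · cases w with
      | nil => simpa only [Surf.dfc] using continuousOn_const
      | cons r' w =>
        have i1 := (ih.1).comp (hmv r).continuousOn (hmaps r)
        have i2 := (hex r').comp (hmv r).continuousOn (hmaps r)
        simp only [Surf.dfc]
        exact (i2.sub (continuousOn_const.mul (hex r))).add i1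
    · have i1 := (ih.2).comp (hmv r).continuousOn (hmaps r)
      simp only [Surf.sme]
      exact (hex r).add i1

end Pool.Agent.H19.DU.CN
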