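import Pool.Agent.H44.DU.Targets

/-!
# CO: almost all directions are good
-/

set_option autoImplicit false

open Pool.Agent.H44.DU

namespace Pool.Agent.H19.DU.CO

theorem pf_CO : T_CO := by
  intro n S
  have h : {t : ℝ | ¬ S.Gd t} ⊆ ⋃ p : (List (Side n) × List (Side n)) × (Side n × Side n),
      {t : ℝ | xi t (S.dev p.1.1 p.2.1) = xi t (S.dev p.1.2 p.2.2) ∧
        (S.dev p.1.1 p.2.1).im ≠ (S.dev p.1.2 p.2.2).im} := by
    intro t ht
    simp only [Set.mem_setOf_eq, Surf.Gd, not_forall] at ht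
    obtain ⟨w, w', c, c', h1, h2⟩ := ht
    exact Set.mem_iUnion.2 ⟨((w, w'), (c, c')), h1, h2⟩
  refine (Set.countable_iUnion fun p => ?_).mono h
  refine Set.Subsingleton.countable ?_
  rintro t ⟨h1, h2⟩ t' ⟨h3, -⟩
  simp only [xi] at h1 h3
  have h4 : (t - t') * ((S.dev p.1.1 p.2.1).im - (S.dev p.1.2 p.2.2).im) = 0 := by
    linear_combination h3 - h1
  rcases mul_eq_zero.1 h4 with h5 | h5
  · linarith
  · exact absurd (by linarith) h2

end Pool.Agent.H19.DU.CO
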