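import Pool.Agent.H44.DU.Targets

set_option autoImplicit false

namespace Pool.Agent.H19.DU.CV

open Pool.Agent.H44.DU

/-- The developed heights along a word are at least the height on the first side. -/
lemma first_le {n : ℕ} {S : Surf n} (h1 : T_HT) {t z : ℝ} {r0 : Side n} {w : List (Side n)}
    (hz : S.Run t (r0 :: w) z) (u : List (Side n)) :
    ∀ (r : Side n) (w' : List (Side n)), r0 :: w = u ++ r :: w' →
      (S.pt t r0 z).im ≤ S.ht t u r z := by
  induction u using List.reverseRecOn with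
  | nil =>
    intro r w' h
    simp only [List.nil_append, List.cons.injEq] at h
    obtain ⟨rfl, -⟩ := h
    simp [Surf.ht, Surf.g_nil, Surf.A, Surf.B]
  | append_singleton u l ih =>
    intro r w' h
    have h' : r0 :: w = u ++ l :: (r :: w') := by rw [h]; simp
    have i1 := ih l (r :: w') h'
    have hr : S.Run t (u ++ [l] ++ [r]) z := by
      have hh : r0 :: w = (u ++ [l] ++ [r]) ++ w' := by rw [h]; simp
      rw [hh, Surf.run_append] at hz
      exact hz.1
    obtain ⟨e1, e2, -⟩ := h1 n S t z u l r hr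
    have e3 : 0 < S.sg t l r (S.g t (u ++ [l]) z) / S.A (u ++ [l]) := div_pos e2 (S.A_pos _)
    linarith

lemma cont_pt {n : ℕ} (S : Surf n) (t : ℝ) (r : Side n) : Continuous (fun z => S.pt t r z) := by
  unfold Surf.pt Surf.lam
  fun_prop

lemma cont_ht {n : ℕ} (S : Surf n) (t : ℝ) (u : List (Side n)) (r : Side n) :
    Continuous (fun z => S.ht t u r z) := by
  have hg : Continuous (fun z => S.g t u z) := by
    unfold Surf.g
    fun_prop
  have hp : Continuous (fun z => S.pt t r (S.g t u z)) := (cont_pt S t r).comp hg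
  unfold Surf.ht
  have hi : Continuous (fun z => (S.pt t r (S.g t u z)).im) := Complex.continuous_im.comp hp
  exact (hi.sub continuous_const).div_const _

theorem pf_CV (h1 : T_HT) (h2 : T_LH) (h3 : T_PT) : T_CV := by
  intro n S t x y r0 w u w' r c hw hy hlo hhi hc hx
  have hLH := h2 n S t (r0 :: w) (by simp)
  obtain ⟨hchn, hy1, hy2⟩ := (hLH y).1 hy
  have hsub : Set.Ioo (S.lo t (r0 :: w)) (S.hi t (r0 :: w)) ⊆
      {z | (S.pt t r0 z).im ≤ S.ht t u r z} := by
    intro z hz
    exact first_le h1 ((hLH z).2 ⟨hchn, hz.1, hz.2⟩) u r w' hw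
  have hcl : IsClosed {z | (S.pt t r0 z).im ≤ S.ht t u r z} :=
    isClosed_le (Complex.continuous_im.comp (cont_pt S t r0)) (cont_ht S t u r)
  have hne : S.lo t (r0 :: w) ≠ S.hi t (r0 :: w) := (hy1.trans hy2).ne
  have hx' : x ∈ closure (Set.Ioo (S.lo t (r0 :: w)) (S.hi t (r0 :: w))) := by
    rw [closure_Ioo hne]; exact ⟨hlo, hhi⟩
  have hin : (S.pt t r0 x).im ≤ S.ht t u r x := (hcl.closure_subset_iff.2 hsub) hx'
  have hJ : S.InJ t r (S.g t u y) := by
    rw [hw, Surf.run_append] at hy
    exact hy.2.2.1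
  have hPQ : xi t (S.P r) ≠ xi t (S.Q r) := (hJ.1.trans hJ.2).ne'
  obtain ⟨-, -, p3, p4, -, -⟩ := h3 n S t r hPQ
  have hA := S.A_pos u
  have hgx : S.g t u x = xi t (S.P c) := by
    rw [hx, Surf.dev, xi_div, xi_sub, Surf.g]
    field_simp
    ring
  have hpt : S.pt t r (S.g t u x) = S.P c := by
    rw [hgx]
    rcases hc with rfl | rfl
    · exact p3
    · rw [Surf.P_nx]; exact p4
  have hfin : S.ht t u r x = (S.dev u c).im := by
    rw [Surf.ht, hpt, Surf.dev, Complex.div_ofReal_im, Complex.sub_im]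
  rw [← hfin]
  exact hin

end Pool.Agent.H19.DU.CV
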