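import Pool.Agent.H44.DU.Targets2

set_option autoImplicit false

namespace Pool.Agent.H19.DU.HL3

open Pool.Agent.H44.DU Filter Topology

variable {n : ℕ} {S : Surf n} {α : Fin n → ℝ} {β : Fin n → ℂ} {t : ℝ}

lemma cont_ex (u : List (Side n)) (r : Side n) :
    Continuous fun x : ℝ => S.ex α β t r (S.g t u x) := by
  have hg : Continuous (fun x : ℝ => S.g t u x) := by
    unfold Surf.g
    fun_prop
  have hp : Continuous (fun z : ℝ => S.pt t r z) := by
    unfold Surf.pt Surf.lam
    fun_prop
  have hq : Continuous (fun x : ℝ => S.pt t r (S.g t u x)) := hp.comp hg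
  unfold Surf.ex hh
  have h1 := Complex.continuous_re.comp hq
  have h2 := Complex.continuous_im.comp hq
  exact (continuous_const.add (continuous_const.mul h1)).add (continuous_const.mul h2)

/-- A sum of nonnegative heights. -/
lemma sme_nonneg (w : List (Side n)) : ∀ x : ℝ,
    (∀ u r w', w = u ++ r :: w' → 0 ≤ S.ex α β t r (S.g t u x)) → 0 ≤ S.sme α β t w x := by
  induction w with
  | nil => intro x _; simp [Surf.sme]
  | cons s w ih =>
    intro x h
    have h1 := h [] s w rfl
    rw [Surf.g_nil] at h1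
    have h2 : 0 ≤ S.sme α β t w (S.mv t s x) := by
      apply ih
      intro u r w' hw
      have h3 := h (s :: u) r w' (by rw [hw]; rfl)
      rwa [Surf.g_cons] at h3
    simp only [Surf.sme]
    linarith

/-- A sum of nonnegative heights with a positive term. -/
lemma sme_pos (w : List (Side n)) : ∀ x : ℝ,
    (∀ u r w', w = u ++ r :: w' → 0 ≤ S.ex α β t r (S.g t u x)) →
    (∃ u r w', w = u ++ r :: w' ∧ 0 < S.ex α β t r (S.g t u x)) → 0 < S.sme α β t w x := by
  induction w with
  | nil =>
    rintro x _ ⟨u, r, w', hw, -⟩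
    simp at hw
  | cons s w ih =>
    rintro x h ⟨u, r, w', hw, hpos⟩
    have h1 := h [] s w rfl
    rw [Surf.g_nil] at h1
    have hsub : ∀ u r w', w = u ++ r :: w' → 0 ≤ S.ex α β t r (S.g t u (S.mv t s x)) := by
      intro u r w' hw
      have h3 := h (s :: u) r w' (by rw [hw]; rfl)
      rwa [Surf.g_cons] at h3
    simp only [Surf.sme]
    cases u with
    | nil =>
      simp only [List.nil_append, List.cons.injEq] at hw
      obtain ⟨rfl, -⟩ := hw
      rw [Surf.g_nil] at hpos
      have h2 := sme_nonneg (S := S) (α := α) (β := β) (t := t) w (S.mv t s x) hsub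
      linarith
    | cons s' u =>
      simp only [List.cons_append, List.cons.injEq] at hw
      obtain ⟨rfl, hw⟩ := hw
      rw [Surf.g_cons] at hpos
      have h2 := ih (S.mv t s x) hsub ⟨u, r, w', hw, hpos⟩
      linarith

theorem pf_HL3 (h1 : T_HL1) (h2 : T_KD) (h3 : T_LH) : T_HL3 := by
  intro n S J up lev α β t c l hJ hH ht hGd hc hGain hup w x hlev hlen hex hlo hhi
  obtain ⟨hpos, -, -⟩ := h1 n S J up lev α β hJ hH
  have hne : w ≠ [] := by
    intro h
    rw [h] at hlen
    simp at hlen
  obtain ⟨y, hy⟩ := hex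
  obtain ⟨hC, hy1, hy2⟩ := (h3 n S t w hne y).1 hy
  have hup' : ∀ u r w', w = u ++ r :: w' → up (lev r.1) := by
    intro u r w' hw
    rw [hlev r (by rw [hw]; simp)]
    exact hup
  apply sme_pos
  · intro u r w' hw
    have hcl : IsClosed {z : ℝ | 0 ≤ S.ex α β t r (S.g t u z)} :=
      isClosed_le continuous_const (cont_ex u r)
    have hsub : Set.Ioo (S.lo t w) (S.hi t w) ⊆ {z : ℝ | 0 ≤ S.ex α β t r (S.g t u z)} := by
      intro z hz
      have hz' := (h3 n S t w hne z).2 ⟨hC, hz.1, hz.2⟩
      rw [hw, Surf.run_append] at hz'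
      exact (hpos t ht r _ hz'.2.2.1 (hup' u r w' hw)).le
    have hx : x ∈ closure (Set.Ioo (S.lo t w) (S.hi t w)) := by
      rw [closure_Ioo (hy1.trans hy2).ne]
      exact ⟨hlo, hhi⟩
    exact (hcl.closure_subset_iff.2 hsub) hx
  · have split : ∀ (k : ℕ) (hk : k < w.length), w = w.take k ++ w[k] :: w.drop (k + 1) := by
      intro k hk
      rw [← List.drop_eq_getElem_cons hk, List.take_append_drop]
    have h0 : 0 < w.length := by omega
    have h3n : 3 * n < w.length := by omega
    by_cases hj : S.InJ t w[0] (S.g t (w.take 0) x)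
    · exact ⟨_, _, _, split 0 h0, hpos t ht _ _ hj (hup' _ _ _ (split 0 h0))⟩
    · by_cases hj' : S.InJ t w[3 * n] (S.g t (w.take (3 * n)) x)
      · exact ⟨_, _, _, split _ h3n, hpos t ht _ _ hj' (hup' _ _ _ (split _ h3n))⟩
      · exfalso
        have := h2 n S t c hGd hc hGain w x ⟨y, hy⟩ hlo hhi 0 (3 * n) h0 h3n hj hj'
        omega

end Pool.Agent.H19.DU.HL3
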