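import Pool.Agent.H44.DU.Targets

/-!
# OP: the directions in which a word is realised form an open interval
-/

set_option autoImplicit false

open Pool.Agent.H44.DU

namespace Pool.Agent.H19.DU.OP

variable {n : ℕ}

/-- the pairs of a direction and a coordinate at which the word is realised -/
def Gw (S : Surf n) (w : List (Side n)) : Set (ℝ × ℝ) := {p | S.Run p.1 w p.2}

theorem gw_open (S : Surf n) (w : List (Side n)) : IsOpen (Gw S w) := by
  induction w with
  | nil =>
    have : Gw S [] = Set.univ := by
      ext p; simp [Gw, Surf.Run]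
    rw [this]
    exact isOpen_univ
  | cons r w ih =>
    by_cases hc : ∀ r' ∈ w.head?, (S.gl r).1 = r'.1
    · have h1 : Gw S (r :: w) = {p : ℝ × ℝ | xi p.1 (S.Q r) < p.2} ∩
          {p : ℝ × ℝ | p.2 < xi p.1 (S.P r)} ∩
          (fun p : ℝ × ℝ => (p.1, S.mv p.1 r p.2)) ⁻¹' (Gw S w) := by
        ext p
        constructor
        · rintro ⟨a1, -, a3⟩
          exact ⟨⟨a1.1, a1.2⟩, a3⟩
        · rintro ⟨⟨a1, a2⟩, a3⟩
          exact ⟨⟨a1, a2⟩, hc, a3⟩
      rw [h1]
      have hx : ∀ z : ℂ, Continuous (fun p : ℝ × ℝ => xi p.1 z) := by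
        intro z
        unfold xi
        fun_prop
      refine ((isOpen_lt (hx _) continuous_snd).inter (isOpen_lt continuous_snd (hx _))).inter
        (ih.preimage ?_)
      refine continuous_fst.prodMk ?_
      unfold Surf.mv
      exact (continuous_const.mul continuous_snd).add (hx _)
    · have h1 : Gw S (r :: w) = ∅ := by
        ext p
        constructor
        · rintro ⟨-, a2, -⟩
          exact absurd a2 hc
        · rintro ⟨⟩
      rw [h1]
      exact isOpen_empty

theorem xi_comb (t t' p q : ℝ) (hpq : p + q = 1) (z : ℂ) :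
    xi (p * t + q * t') z = p * xi t z + q * xi t' z := by
  simp only [xi]
  have : z.re = p * z.re + q * z.re := by rw [← add_mul, hpq, one_mul]
  linear_combination this

theorem mv_comb (S : Surf n) (r : Side n) (t t' x x' p q : ℝ) (hpq : p + q = 1) :
    S.mv (p * t + q * t') r (p * x + q * x') = p * S.mv t r x + q * S.mv t' r x' := by
  simp only [Surf.mv, xi_comb t t' p q hpq]
  ring

theorem gw_comb (S : Surf n) (w : List (Side n)) : ∀ (t t' x x' p q : ℝ), 0 ≤ p → 0 ≤ q →
    p + q = 1 → S.Run t w x → S.Run t' w x' → S.Run (p * t + q * t') w (p * x + q * x') := by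
  induction w with
  | nil => intros; trivial
  | cons r w ih =>
    rintro t t' x x' p q hp hq hpq ⟨a1, a2, a3⟩ ⟨b1, -, b3⟩
    refine ⟨⟨?_, ?_⟩, a2, ?_⟩
    · rw [xi_comb t t' p q hpq]
      have h1 := a1.1
      have h2 := b1.1
      rcases lt_or_eq_of_le hp with h | h
      · have h3 := mul_lt_mul_of_pos_left h1 h
        have h4 := mul_le_mul_of_nonneg_left h2.le hq
        linarith
      · have h5 : q = 1 := by linarith
        subst h h5
        linarith
    · rw [xi_comb t t' p q hpq]
      have h1 := a1.2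
      have h2 := b1.2
      rcases lt_or_eq_of_le hp with h | h
      · have h3 := mul_lt_mul_of_pos_left h1 h
        have h4 := mul_le_mul_of_nonneg_left h2.le hq
        linarith
      · have h5 : q = 1 := by linarith
        subst h h5
        linarith
    · rw [mv_comb S r t t' x x' p q hpq]
      exact ih _ _ _ _ p q hp hq hpq a3 b3

theorem pf_OP : T_OP := by
  intro n S w
  constructor
  · have h1 : {t : ℝ | ∃ x, S.Run t w x} = Prod.fst '' Gw S w := by
      ext t
      constructor
      · rintro ⟨x, hx⟩
        exact ⟨(t, x), hx, rfl⟩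
      · rintro ⟨⟨t', x⟩, hx, rfl⟩
        exact ⟨x, hx⟩
    rw [h1]
    exact isOpenMap_fst _ (gw_open S w)
  · have h2 : Convex ℝ {t : ℝ | ∃ x, S.Run t w x} := by
      rintro t ⟨x, hx⟩ t' ⟨x', hx'⟩ p q hp hq hpq
      exact ⟨p * x + q * x', gw_comb S w t t' x x' p q hp hq hpq hx hx'⟩
    exact h2.ordConnected

end Pool.Agent.H19.DU.OP
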