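import Pool.Agent.H44.DU.Targets

set_option autoImplicit false

namespace Pool.Agent.H19.DU.SG

open Pool.Agent.H44.DU

variable {n : ℕ} {S : Surf n}

lemma abs_xi_le {t K D : ℝ} {z : ℂ} (ht : |t| ≤ K) (hz : ‖z‖ ≤ D) :
    |xi t z| ≤ D * (1 + K) := by
  have h1 : |z.re| ≤ D := (Complex.abs_re_le_norm z).trans hz
  have h2 : |z.im| ≤ D := (Complex.abs_im_le_norm z).trans hz
  have hK : 0 ≤ K := (abs_nonneg t).trans ht
  have h3 : |t * z.im| ≤ K * D := by
    rw [abs_mul]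
    exact mul_le_mul ht h2 (abs_nonneg _) hK
  have h4 : |xi t z| ≤ |z.re| + |t * z.im| := by
    rw [xi]; exact abs_sub _ _
  linarith

/-- The vertices are bounded. -/
lemma exists_bound (S : Surf n) : ∃ D > 0, ∀ i k, ‖S.v i k‖ ≤ D := by
  refine ⟨1 + ∑ i, ∑ k, ‖S.v i k‖, ?_, ?_⟩
  · have : 0 ≤ ∑ i, ∑ k, ‖S.v i k‖ :=
      Finset.sum_nonneg fun i _ => Finset.sum_nonneg fun k _ => norm_nonneg _
    linarith
  · intro i k
    have h1 : ‖S.v i k‖ ≤ ∑ k, ‖S.v i k‖ :=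
      Finset.single_le_sum (f := fun k => ‖S.v i k‖) (fun k _ => norm_nonneg _)
        (Finset.mem_univ k)
    have h2 : ∑ k, ‖S.v i k‖ ≤ ∑ i, ∑ k, ‖S.v i k‖ :=
      Finset.single_le_sum (f := fun i => ∑ k, ‖S.v i k‖)
        (fun i _ => Finset.sum_nonneg fun k _ => norm_nonneg _) (Finset.mem_univ i)
    linarith

/-- The areas are bounded below. -/
lemma exists_area (S : Surf n) : ∃ a0 > 0, ∀ s, a0 ≤ S.ar s := by
  have hs : 0 ≤ ∑ s, (S.ar s)⁻¹ := Finset.sum_nonneg fun s _ => (inv_pos.2 (S.ar_pos s)).le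
  refine ⟨(1 + ∑ s, (S.ar s)⁻¹)⁻¹, inv_pos.2 (by linarith), ?_⟩
  intro s
  have h1 : (S.ar s)⁻¹ ≤ ∑ s, (S.ar s)⁻¹ :=
    Finset.single_le_sum (f := fun s => (S.ar s)⁻¹) (fun s _ => (inv_pos.2 (S.ar_pos s)).le)
      (Finset.mem_univ s)
  rw [inv_le_comm₀ (by linarith) (S.ar_pos s)]
  linarith

lemma lam_gl {t y : ℝ} {r : Side n} (h : xi t (S.P r) ≠ xi t (S.Q r)) :
    S.lam t (S.gl r) (S.mv t r y) = 1 - S.lam t r y := by
  have ha := (S.a_pos r).ne'
  have h' : xi t (S.P r) - xi t (S.Q r) ≠ 0 := sub_ne_zero.2 h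
  have h'' : xi t (S.Q r) - xi t (S.P r) ≠ 0 := sub_ne_zero.2 h.symm
  rw [Surf.lam, Surf.lam, S.xi_P_gl, S.xi_Q_gl]
  simp only [Surf.mv]
  have e1 : S.a r * xi t (S.Q r) + xi t (S.b r) - (S.a r * y + xi t (S.b r)) =
    S.a r * (xi t (S.Q r) - y) := by ring
  have e2 : S.a r * xi t (S.Q r) + xi t (S.b r) - (S.a r * xi t (S.P r) + xi t (S.b r)) =
    S.a r * (xi t (S.Q r) - xi t (S.P r)) := by ring
  rw [e1, e2, mul_div_mul_left _ _ ha]
  field_simp
  ring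

/-- The cross products, `r` being the next side. -/
lemma cross_right {t y σ : ℝ} {s : Side n}
    (h : S.pt t (nx s) y = S.pt t s y + (σ : ℂ) * ((t : ℂ) + Complex.I)) :
    S.lam t (nx s) y * S.ar s = σ * (xi t (S.Q s) - xi t (S.P s)) ∧
    (1 - S.lam t s y) * S.ar s = σ * (xi t (S.Q s) - xi t (S.O s)) := by
  simp only [Surf.pt, S.P_nx, S.Q_nx] at h
  have hre := congrArg Complex.re h
  have him := congrArg Complex.im h
  simp only [Complex.add_re, Complex.mul_re, Complex.sub_re, Complex.ofReal_re, Complex.ofReal_im,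
    Complex.I_re, Complex.I_im, Complex.add_im, Complex.mul_im, Complex.sub_im] at hre him
  simp only [xi, Surf.ar, Complex.sub_re, Complex.sub_im]
  constructor
  · linear_combination ((S.Q s).re - (S.P s).re) * him - ((S.Q s).im - (S.P s).im) * hre
  · linear_combination ((S.Q s).re - (S.O s).re) * him - ((S.Q s).im - (S.O s).im) * hre

/-- The cross products, `r` being the second next side. -/
lemma cross_left {t y σ : ℝ} {s : Side n}
    (h : S.pt t (nx (nx s)) y = S.pt t s y + (σ : ℂ) * ((t : ℂ) + Complex.I)) :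
    (1 - S.lam t (nx (nx s)) y) * S.ar s = σ * (xi t (S.Q s) - xi t (S.P s)) ∧
    S.lam t s y * S.ar s = σ * (xi t (S.O s) - xi t (S.P s)) := by
  simp only [Surf.pt, S.P_nx_nx, S.Q_nx_nx] at h
  have hre := congrArg Complex.re h
  have him := congrArg Complex.im h
  simp only [Complex.add_re, Complex.mul_re, Complex.sub_re, Complex.ofReal_re, Complex.ofReal_im,
    Complex.I_re, Complex.I_im, Complex.add_im, Complex.mul_im, Complex.sub_im] at hre him
  simp only [xi, Surf.ar, Complex.sub_re, Complex.sub_im]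
  constructor
  · linear_combination ((S.Q s).re - (S.P s).re) * him - ((S.Q s).im - (S.P s).im) * hre
  · linear_combination ((S.O s).re - (S.P s).re) * him - ((S.O s).im - (S.P s).im) * hre

theorem pf_SG (_h1 : T_PT) (h2 : T_CR) : T_SG := by
  intro n S K
  obtain ⟨D, hD, hDv⟩ := exists_bound S
  obtain ⟨a0, ha0, ha⟩ := exists_area S
  set M : ℝ := 2 * (D * (1 + |K|)) with hM
  have hMpos : 0 < M := by
    have : 0 ≤ |K| := abs_nonneg K
    positivity
  refine ⟨a0 / (2 * M), by positivity, ?_⟩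
  intro t ht r0 r1 r2 x hrun hcase
  have htK : |t| ≤ |K| := ht.trans (le_abs_self K)
  -- bounds for the differences of the coordinates
  have hdiff : ∀ i k i' k', xi t (S.v i k) - xi t (S.v i' k') ≤ M := by
    intro i k i' k'
    have e1 := abs_le.1 (abs_xi_le htK (hDv i k))
    have e2 := abs_le.1 (abs_xi_le htK (hDv i' k'))
    rw [hM]
    linarith [e1.2, e2.1]
  rw [Surf.run_cons_cons, Surf.run_cons_cons, Surf.run_single] at hrun
  obtain ⟨hJ0, hg0, hJ1, hg1, hJ2⟩ := hrun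
  have hI0 : S.InI t (S.gl r0) (S.mv t r0 x) := (S.inI_gl_iff t r0 x).2 hJ0
  have hI1 : S.InI t (S.gl r1) (S.mv t r1 (S.mv t r0 x)) := (S.inI_gl_iff t r1 _).2 hJ1
  obtain ⟨c1, c2⟩ := (h2 n S t (S.mv t r0 x)).1 (S.gl r0) r1 hg0 hI0 hJ1
  obtain ⟨d1, d2⟩ := (h2 n S t (S.mv t r1 (S.mv t r0 x))).1 (S.gl r1) r2 hg1 hI1 hJ2
  set y1 : ℝ := S.mv t r0 x with hy1
  set y2 : ℝ := S.mv t r1 y1 with hy2
  have hs0 : 0 < S.sg t r0 r1 y1 := by rw [Surf.sg]; linarith
  have hs1 : 0 < S.sg t r1 r2 y2 := by rw [Surf.sg]; linarith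
  have c2' : S.pt t r1 y1 = S.pt t (S.gl r0) y1 +
      ((S.sg t r0 r1 y1 : ℝ) : ℂ) * ((t : ℂ) + Complex.I) := c2
  have d2' : S.pt t r2 y2 = S.pt t (S.gl r1) y2 +
      ((S.sg t r1 r2 y2 : ℝ) : ℂ) * ((t : ℂ) + Complex.I) := d2
  have hPQ1 : xi t (S.P r1) - xi t (S.Q r1) > 0 := by linarith [hJ1.1, hJ1.2]
  have hlam := lam_gl (S := S) (y := y1) (sub_ne_zero.1 hPQ1.ne')
  rw [← hy2] at hlam
  set l : ℝ := S.lam t r1 y1 with hl
  have hl0 : 0 ≤ l := by
    rw [hl, Surf.lam]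
    exact div_nonneg (by linarith [hJ1.2]) hPQ1.le
  have hl1 : l ≤ 1 := by
    rw [hl, Surf.lam, div_le_one hPQ1]
    linarith [hJ1.1]
  -- the final estimate
  have key : ∀ (p q X Y A B : ℝ), 0 ≤ p → 0 ≤ q → p + q = 1 → a0 ≤ A → a0 ≤ B → X ≤ M → Y ≤ M →
      p * A = S.sg t r0 r1 y1 * X → q * B = S.sg t r1 r2 y2 * Y →
      a0 / (2 * M) ≤ S.sg t r0 r1 y1 ∨ a0 / (2 * M) ≤ S.sg t r1 r2 y2 := by
    intro p q X Y A B hp hq hpq hA hB hX hY e1 e2
    by_contra hcon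
    push Not at hcon
    obtain ⟨g1, g2⟩ := hcon
    rw [lt_div_iff₀ (by positivity)] at g1 g2
    have f1 : p * a0 ≤ S.sg t r0 r1 y1 * M := by
      calc p * a0 ≤ p * A := mul_le_mul_of_nonneg_left hA hp
        _ = S.sg t r0 r1 y1 * X := e1
        _ ≤ S.sg t r0 r1 y1 * M := mul_le_mul_of_nonneg_left hX hs0.le
    have f2 : q * a0 ≤ S.sg t r1 r2 y2 * M := by
      calc q * a0 ≤ q * B := mul_le_mul_of_nonneg_left hB hq
        _ = S.sg t r1 r2 y2 * Y := e2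
        _ ≤ S.sg t r1 r2 y2 * M := mul_le_mul_of_nonneg_left hY hs1.le
    have f3 : p * a0 + q * a0 = a0 := by rw [← add_mul, hpq, one_mul]
    nlinarith [f1, f2, f3, g1, g2]
  rcases hcase with ⟨h01, h12⟩ | ⟨h01, h12⟩
  · rw [h01] at c2'
    rw [h12] at d2'
    obtain ⟨k1, -⟩ := cross_right c2'
    obtain ⟨-, k2⟩ := cross_left d2'
    rw [← h01] at k1
    rw [hlam] at k2
    rw [← h12] at k2
    exact key l (1 - l) _ _ _ _ hl0 (by linarith) (by ring) (ha _) (ha _)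
      (hdiff _ _ _ _) (hdiff _ _ _ _) k1 k2
  · rw [h01] at c2'
    rw [h12] at d2'
    obtain ⟨k1, -⟩ := cross_left c2'
    obtain ⟨-, k2⟩ := cross_right d2'
    rw [← h01] at k1
    rw [hlam] at k2
    rw [← h12] at k2
    exact key (1 - l) (1 - (1 - l)) _ _ _ _ (by linarith) (by linarith) (by ring) (ha _) (ha _)
      (hdiff _ _ _ _) (hdiff _ _ _ _) k1 k2

end Pool.Agent.H19.DU.SG
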